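import Mathlib
import Pool.Agent.Helper47.P.Defs
import Pool.Agent.Helper64.M.Dom

/-!
# Theorem M+: existence of a dominant component for the types `Tc`
-/

set_option autoImplicit false

namespace Pool.Agent.Helper64.P

open MvPolynomial AlgebraicGeometry CategoryTheory Pool.Agent.Helper15 Pool.Agent.Helper47.M
  Pool.Agent.Helper47.P Pool.Agent.Helper64.M Pool.Agent.Helper76.M

variable {k l : ℕ} {N : Fin k → ℕ} {d : Fin l → Fin k → ℕ}

section base

variable {K Ω : Type} [Field K] [Field Ω] [Algebra K Ω]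

theorem exists_z' [IsAlgClosed Ω] (hpos : ∀ i r, 0 < d i r) (c : Tx N d → Ω) (r : Fin k) (hr : N r = l + 1)
    (y : Pt N Ω) (t : Ω) :
    ∃ z : Fin (N r + 1) → Ω, z ≠ 0 ∧ (∀ i, Fm c (Function.update y r z) i = 0) ∧
      z 1 = t * z 0 := by
  have h10 : (1 : Fin (N r + 1)) ≠ 0 := by
    intro h
    have h1 : 1 % (N r + 1) = 0 := congrArg Fin.val h
    rw [Nat.mod_eq_of_lt (by omega)] at h1
    omega
  let f0 : Fin l → MvPolynomial (Fin (N r + 1)) Ω := fun i =>
    fv (fun m => C (c ⟨i, m⟩)) (Function.update (fun j e => C (y j e)) r X)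
  let f : Fin (l + 1) → MvPolynomial (Fin (N r + 1)) Ω := Fin.cons (X 1 - C t * X 0) f0
  have hev : ∀ (z : Fin (N r + 1) → Ω) i, eval z (f0 i) = Fm c (Function.update y r z) i := by
    intro z i
    have h1 := fv_map' (eval z) (fun m : Tn N (d i) => C (c ⟨i, m⟩))
      (Function.update (fun j e => C (y j e)) r X)
    have h2 : (fun j e => eval z ((Function.update (fun j e => C (y j e)) r X :
        Pt N (MvPolynomial (Fin (N r + 1)) Ω)) j e)) = Function.update y r z := by
      funext j e
      by_cases hj : j = r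
      · subst hj
        rw [Function.update_self, Function.update_self, eval_X]
      · rw [Function.update_of_ne hj, Function.update_of_ne hj, eval_C]
    rw [h2] at h1
    simp only [eval_C] at h1
    exact h1
  obtain ⟨z, hz0, hz⟩ := Pool.Agent.Helper76.CY.exists_common_zero f (by
    intro i
    refine Fin.cases ?_ (fun i => ?_) i
    · show eval 0 (X 1 - C t * X 0) = 0
      simp
    · show eval 0 (f0 i) = 0
      rw [hev]
      have h1 := fv_scale' (fun m => c ⟨i, m⟩) y r 0
      rw [zero_pow (hpos i r).ne', zero_mul] at h1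
      have h2 : (fun i => 0 * y r i) = (0 : Fin (N r + 1) → Ω) := by
        funext i
        exact zero_mul _
      rw [h2] at h1
      exact h1) (by
    rw [Fintype.card_fin]
    omega)
  refine ⟨z, hz0, fun i => ?_, ?_⟩
  · rw [← hev]
    exact hz i.succ
  · have h1 : eval z (X 1 - C t * X 0) = 0 := hz 0
    simp only [map_sub, map_mul, eval_X, eval_C] at h1
    exact sub_eq_zero.mp h1

/-- The generic point. -/
theorem exists_pt' [IsAlgClosed Ω] (hpos : ∀ i r, 0 < d i r) (c : Tx N d → K) (hc : AllNice K c) (r : Fin k)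
    (hr : N r = l + 1) (g : Wi N r → Ω) (hg : AlgebraicIndependent K g) :
    ∃ x : Pt N Ω, GenPt K c r x ∧ Nice (fun e => algebraMap K Ω (c e)) x ∧ (∀ j, x j 0 = 1) ∧
      (∀ q : {q : Vr N // q.1 ≠ r}, x q.1.1 q.1.2.succ = g (some q)) ∧ x r 1 = g none := by
  obtain ⟨z, hz0, hz, hz1⟩ := exists_z' hpos (fun e => algebraMap K Ω (c e)) r hr (bp r g) (g none)
  have hgen : ∀ u : Ω, (∃ i, u * z i = 1) →
      GenPt K c r (Function.update (bp r g) r fun i => u * z i) := by
    rintro u ⟨i0, hi0⟩
    refine ⟨fun i => ?_, fun j hj => ?_, ⟨i0, ?_⟩, ?_⟩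
    · have h1 := fv_scale' (fun m => algebraMap K Ω (c ⟨i, m⟩)) (Function.update (bp r g) r z) r u
      have h2 : fv (fun m => algebraMap K Ω (c ⟨i, m⟩)) (Function.update (bp r g) r z) = 0 := hz i
      rw [h2, mul_zero, Function.update_idem, Function.update_self] at h1
      exact h1
    · rw [Function.update_of_ne hj, bp_zero]
    · rw [Function.update_self]
      exact hi0
    · have h1 : (fun q : {q : Vr N // q.1 ≠ r} => (Function.update (bp r g) r fun i => u * z i)
          q.1.1 q.1.2.succ) = fun q => g (some q) := by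
        funext q
        rw [Function.update_of_ne q.2]
        exact bp_succ r g _ q.2 _
      rw [h1]
      exact hg.comp some (Option.some_injective _)
  obtain ⟨i, hi⟩ : ∃ i, z i ≠ 0 := by
    by_contra hcon
    push Not at hcon
    exact hz0 (funext hcon)
  have hz00 : z 0 ≠ 0 := by
    intro h0
    apply (hc r hr Ω _ (hgen (z i)⁻¹ ⟨i, inv_mul_cancel₀ hi⟩)).2
    rw [Function.update_self]
    refine ⟨?_, ?_⟩
    · show (z i)⁻¹ * z 0 = 0
      rw [h0, mul_zero]
    · show (z i)⁻¹ * z 1 = 0
      rw [hz1, h0, mul_zero, mul_zero]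
  have hg0 := hgen (z 0)⁻¹ ⟨0, inv_mul_cancel₀ hz00⟩
  refine ⟨_, hg0, (hc r hr Ω _ hg0).1, fun j => ?_, fun q => ?_, ?_⟩
  · by_cases hj : j = r
    · subst hj
      rw [Function.update_self]
      exact inv_mul_cancel₀ hz00
    · rw [Function.update_of_ne hj, bp_zero]
  · rw [Function.update_of_ne q.2]
    exact bp_succ r g _ q.2 _
  · rw [Function.update_self]
    show (z 0)⁻¹ * z 1 = _
    rw [hz1, mul_comm (g none), ← mul_assoc, inv_mul_cancel₀ hz00, one_mul]

end base

variable {K : Type} [Field K]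

/-- `dep_of_nice` without conditions on the degrees. -/
theorem dep' [CharZero K] {Ω : Type} [Field Ω] [Algebra K Ω] (c : Tx N d → K) (x : Pt N Ω)
    (hx : ∀ i, Fm (fun e => algebraMap K Ω (c e)) x i = 0)
    (hn : Nice (fun e => algebraMap K Ω (c e)) x) (j : Fin k) (hj : N j = l + 1)
    (h1 : x j 0 = 1) :
    ∀ i i', ¬ AlgebraicIndependent (Bf K x {j}) ![x j i, x j i'] := by
  intro i i' hind
  have : CharZero (Bf K x {j}) :=
    charZero_of_injective_algebraMap (algebraMap K (Bf K x {j})).injective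
  obtain ⟨D1, hD1⟩ := Pool.Agent.Helper15.Der.exists_derivation _ hind ![1, 0]
  obtain ⟨D2, hD2⟩ := Pool.Agent.Helper15.Der.exists_derivation _ hind ![0, 1]
  have a1 : D1 (x j i) = 1 := hD1 0
  have a2 : D1 (x j i') = 0 := hD1 1
  have b1 : D2 (x j i) = 0 := hD2 0
  have b2 : D2 (x j i') = 1 := hD2 1
  have hli : LinearIndependent Ω ![x j, fun b => D1 (x j b), fun b => D2 (x j b)] := by
    refine ind3 _ _ _ fun α β γ he => ?_
    have e0 := he 0
    rw [h1, D1.map_one_eq_zero, D2.map_one_eq_zero, mul_zero, mul_zero, mul_one, add_zero,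
      add_zero] at e0
    have e1 := he i
    have e2 := he i'
    rw [a1, b1, e0] at e1
    rw [a2, b2, e0] at e2
    refine ⟨e0, ?_, ?_⟩
    · simpa using e1
    · simpa using e2
  have hc := ker_card (dFL (fun e => algebraMap K Ω (c e)) x j) (hn.j1 j hj) _ hli fun s => by
    funext i1
    fin_cases s
    · exact euler_eq c x hx j i1
    · exact (dF_der c x hx j D1).2.2 i1
    · exact (dF_der c x hx j D2).2.2 i1
  rw [Fintype.card_fin] at hc
  omega

/-- The transcendence degree over the field of the other factors is at most `N s - l`. -/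
theorem card_basis' [CharZero K] {Ω : Type} [Field Ω] [Algebra K Ω] (h : Tc N d) (c : Tx N d → K)
    (x : Pt N Ω) (hx : ∀ i, Fm (fun e => algebraMap K Ω (c e)) x i = 0)
    (hn : Nice (fun e => algebraMap K Ω (c e)) x) (s : Fin k) (h1 : x s 0 = 1)
    (t : Set Ω) (ht : t ⊆ Set.range (x s))
    (hb : AlgebraicIndependent (Bf K x {s}) ((↑) : t → Ω))
    (halg : N s = l → ∀ i, IsAlgebraic (Bf K x {s}) (x s i)) :
    Finite t ∧ Cardinal.mk t ≤ (N s - l : ℕ) := by
  have hf : t.Finite := (Set.finite_range (x s)).subset ht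
  refine ⟨hf, ?_⟩
  rcases h.dim s with hs | hs
  · have he : IsEmpty t := by
      refine ⟨fun y => ?_⟩
      obtain ⟨i, hi⟩ := ht y.2
      have h2 : Transcendental (Bf K x {s}) (y : Ω) := hb.transcendental y
      apply h2
      rw [← hi]
      exact halg hs i
    rw [Cardinal.mk_eq_zero t]
    exact bot_le
  · have he : Subsingleton t := by
      refine ⟨fun y y' => ?_⟩
      by_contra hne
      obtain ⟨i, hi⟩ := ht y.2
      obtain ⟨i', hi'⟩ := ht y'.2
      apply dep' c x hx hn s hs h1 i i'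
      have h2 := hb.comp ![y, y'] (by
        intro a b hab
        fin_cases a <;> fin_cases b <;> simp_all)
      have h3 : (fun y : t => (y : Ω)) ∘ ![y, y'] = ![x s i, x s i'] := by
        funext a
        fin_cases a
        · exact hi.symm
        · exact hi'.symm
      rw [← h3]
      exact h2
    have h3 : N s - l = 1 := by omega
    rw [h3, Nat.cast_one]
    exact Cardinal.le_one_iff_subsingleton.mpr he

/-- `exists_dom` for the types `Tc`, from `alg_of_nice`. -/
theorem exists_dom_of [CharZero K] (h : Tc N d)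
    (halg : ∀ (Ω : Type) [Field Ω] [Algebra K Ω] (c : Tx N d → K) (x : Pt N Ω),
      (∀ i, Fm (fun e => algebraMap K Ω (c e)) x i = 0) →
      Nice (fun e => algebraMap K Ω (c e)) x → ∀ j, N j = l → x j 0 = 1 →
        ∀ i, IsAlgebraic (Bf K x {j}) (x j i)) (hR : ∃ r, N r = l + 1) (c : Tx N d → K)
    (hc : AllNice K c) : ∃ P, IsDom (idl c) (∑ r, N r - l) P := by
  obtain ⟨r, hr⟩ := hR
  let R0 := MvPolynomial (Wi N r) K
  let Ω := AlgebraicClosure (FractionRing R0)
  let g : Wi N r → Ω := fun i => algebraMap R0 Ω (X i)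
  have hinj0 : Function.Injective (algebraMap R0 Ω) := by
    rw [IsScalarTower.algebraMap_eq R0 (FractionRing R0) Ω]
    exact (algebraMap (FractionRing R0) Ω).injective.comp (IsFractionRing.injective _ _)
  have hfs : FaithfulSMul R0 Ω := (faithfulSMul_iff_algebraMap_injective R0 Ω).mpr hinj0
  have halg0 : Algebra.IsAlgebraic R0 Ω :=
    (IsFractionRing.comap_isAlgebraic_iff (A := R0) (K := FractionRing R0)).mpr inferInstance
  have hg : IsTranscendenceBasis K g :=
    (IsTranscendenceBasis.mvPolynomial (Wi N r) K).algebraMap_comp (A := Ω)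
  obtain ⟨x, hgen, hn, h1, hxs, hxr⟩ := exists_pt' h.pos c hc r hr g hg.1
  have hcard : Fintype.card (Wi N r) = ∑ r, N r - l := by
    have := card_ne N r
    rw [Fintype.card_option]
    omega
  have htr : Algebra.trdeg K Ω = (∑ r, N r - l : ℕ) := by
    rw [← hg.cardinalMk_eq_trdeg, Cardinal.mk_fintype, hcard]
  have hgx : ∀ i : Wi N r, ∃ q : Vr N, g i = x q.1 q.2.succ := by
    rintro (_ | q)
    · obtain ⟨n, hn'⟩ : ∃ n, N r = n + 1 := ⟨l, hr⟩
      have h10 : (1 : Fin (N r + 1)) ≠ 0 := by
        intro h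
        have h1 : 1 % (N r + 1) = 0 := congrArg Fin.val h
        rw [Nat.mod_eq_of_lt (by omega)] at h1
        omega
      refine ⟨⟨r, (1 : Fin (N r + 1)).pred h10⟩, ?_⟩
      rw [← hxr]
      show x r 1 = x r ((1 : Fin (N r + 1)).pred h10).succ
      rw [Fin.succ_pred]
    · exact ⟨q.1, (hxs q).symm⟩
  have hL : Algebra.IsAlgebraic (Bf K x ∅) Ω := by
    refine ⟨fun z => ?_⟩
    refine isAlg_mono ?_ (hg.isAlgebraic_field.isAlgebraic z)
    rw [IntermediateField.adjoin_le_iff]
    rintro _ ⟨i, rfl⟩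
    obtain ⟨q, hq⟩ := hgx i
    rw [hq]
    exact IntermediateField.subset_adjoin _ _ ⟨q.1, Set.notMem_empty _, _, rfl⟩
  have hind : ∀ s : Fin k,
      AlgebraicIndependent K fun q : {q : Vr N // q.1 ≠ s} => x q.1.1 q.1.2.succ := by
    intro s
    obtain ⟨t, ht, hb⟩ := exists_basis x s hL
    obtain ⟨hfin, hle⟩ := card_basis' h c x hgen.eq hn s (h1 s) t ht hb.1
      (fun hs => halg Ω c x hgen.eq hn s hs (h1 s))
    refine ind_of_trdeg x h1 s hL t hb ?_ hfin
    rw [htr, Cardinal.mk_fintype]
    refine (add_le_add_right hle _).trans ?_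
    rw [← Nat.cast_add, Nat.cast_le]
    have h2 := card_ne N s
    have h3 := h.dim s
    omega
  refine ⟨RingHom.ker (ev K x), RingHom.ker_isPrime _, idl_le c x h1 hgen.eq,
    fun s Φ hΦ hv => elim_of_ind x s (hind s) Φ hΦ hv, ?_⟩
  rw [← htr]
  have hinj : Function.Injective (Ideal.kerLiftAlg (ev K x)) := Ideal.kerLiftAlg_injective _
  apply le_antisymm
  · exact trdeg_le_of_injective (Ideal.kerLiftAlg (ev K x)) hinj
  · choose q hq using hgx
    have h2 : AlgebraicIndependent K fun i : Wi N r =>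
        Ideal.Quotient.mk (RingHom.ker (ev K x)) (X (q i)) := by
      refine AlgebraicIndependent.of_comp (Ideal.kerLiftAlg (ev K x)) ?_
      have h3 : (Ideal.kerLiftAlg (ev K x)) ∘ (fun i : Wi N r =>
          Ideal.Quotient.mk (RingHom.ker (ev K x)) (X (q i))) = g := by
        funext i
        rw [hq]
        show Ideal.kerLiftAlg (ev K x) (Ideal.Quotient.mk _ (X (q i))) = _
        rw [Ideal.kerLiftAlg_mk, ev, aeval_X]
      rw [h3]
      exact hg.1
    rw [← hg.cardinalMk_eq_trdeg]
    exact h2.cardinalMk_le_trdeg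

end Pool.Agent.Helper64.P
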