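import Pool.Agent.Helper64.P.Alg
import Pool.Agent.Helper64.P.Dom

/-!
# Theorem M+: `exists_dom` for the types `Tc`
-/

set_option autoImplicit false

namespace Pool.Agent.Helper64.P

open Pool.Agent.Helper47.M Pool.Agent.Helper47.P

variable {k l : ℕ} {N : Fin k → ℕ} {d : Fin l → Fin k → ℕ}

variable {K : Type} [Field K]

theorem exists_dom [CharZero K] (h : Tc N d) (hR : ∃ r, N r = l + 1) (c : Tx N d → K)
    (hc : AllNice K c) : ∃ P, IsDom (idl c) (∑ r, N r - l) P :=
  exists_dom_of h (fun _ _ _ c x hx hn j hj h1 => alg_of_nice h c x hx hn j hj h1) hR c hc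

end Pool.Agent.Helper64.P
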