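import Mathlib
import Pool.Agent.Helper47.P.Defs
import Pool.Agent.Helper76.M.T

/-!
# Theorem M+: `exists_two`, `alg_of_nice` for the types `Tc`
-/

set_option autoImplicit false

namespace Pool.Agent.Helper64.P

open MvPolynomial Pool.Agent.Helper47.M Pool.Agent.Helper47.P
open Pool.Agent.Helper76.M hiding exists_two alg_of_nice

variable {k l : ℕ} {N : Fin k → ℕ} {d : Fin l → Fin k → ℕ}

theorem exists_two (h : Tc N d) (j : Fin k) (hj : N j = l) :
    ∃ i0, d i0 j = 2 ∧ ∀ i, i ≠ i0 → d i j = 1 := by
  have h1 : ∑ i, (d i j - 1) = 1 := by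
    have h2 : ∑ i, d i j = ∑ i, ((d i j - 1) + 1) :=
      Finset.sum_congr rfl fun i _ => (Nat.sub_add_cancel (h.pos i j)).symm
    rw [h.dbl j hj, Finset.sum_add_distrib, Finset.sum_const, Finset.card_univ, Fintype.card_fin]
      at h2
    simp only [smul_eq_mul, mul_one] at h2
    omega
  obtain ⟨i0, hi0⟩ : ∃ i0, d i0 j - 1 ≠ 0 := by
    by_contra hno
    push Not at hno
    rw [Finset.sum_eq_zero fun i _ => hno i] at h1
    exact absurd h1 (by norm_num)
  have h3 := Finset.add_sum_erase Finset.univ (fun i => d i j - 1) (Finset.mem_univ i0)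
  rw [h1] at h3
  have h4 : ∑ i ∈ Finset.univ.erase i0, (d i j - 1) = 0 := by
    have : 1 ≤ d i0 j - 1 := Nat.one_le_iff_ne_zero.2 hi0
    omega
  refine ⟨i0, ?_, fun i hi => ?_⟩
  · have := h.pos i0 j
    omega
  · have h5 := (Finset.sum_eq_zero_iff.1 h4) i (Finset.mem_erase.2 ⟨hi, Finset.mem_univ i⟩)
    have := h.pos i j
    omega

variable {K Ω : Type} [Field K] [CharZero K] [Field Ω] [Algebra K Ω]

theorem alg_of_nice (h : Tc N d) (c : Tx N d → K) (x : Pt N Ω)
    (hx : ∀ i, Fm (fun e => algebraMap K Ω (c e)) x i = 0)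
    (hn : Nice (fun e => algebraMap K Ω (c e)) x) (j : Fin k) (hj : N j = l) (h1 : x j 0 = 1) :
    ∀ i, IsAlgebraic (Bf K x {j}) (x j i) := by
  intro i
  by_contra htr
  have : CharZero (Bf K x {j}) :=
    charZero_of_injective_algebraMap (algebraMap K (Bf K x {j})).injective
  have hcz : CharZero Ω := charZero_of_injective_algebraMap (algebraMap K Ω).injective
  obtain ⟨D, hD⟩ := Pool.Agent.Helper15.Der.exists_derivation (k := Bf K x {j})
    (fun _ : Unit => x j i) (algebraicIndependent_unique_type_iff.mpr htr) (fun _ => 1)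
  have a1 : D (x j i) = 1 := hD ()
  obtain ⟨i0, hi0, hi1⟩ := exists_two h j hj
  obtain ⟨hc, hr, hb⟩ := dF_der c x hx j D
  have hDb : ∀ i1, i1 ≠ i0 →
      dF (fun e => algebraMap K Ω (c e)) x j (fun b => D (D (x j b))) i1 = 0 := by
    intro i1 hi
    have h2 := dv_der_one D (fun m => algebraMap K Ω (c ⟨i1, m⟩)) (fun m => hc _) x j hr
      (fun b => D (x j b)) (hi1 i1 hi)
    have h3 : dv (fun m => algebraMap K Ω (c ⟨i1, m⟩)) x j (fun b => D (x j b)) = 0 := hb i1
    rw [h3, map_zero] at h2
    exact h2.symm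
  have hz : (fun b => D (D (x j b))) = 0 := by
    by_contra hne
    have hli : LinearIndependent Ω ![x j, fun b => D (x j b), fun b => D (D (x j b))] := by
      refine ind3 _ _ _ fun α β γ he => ?_
      have e0 := he 0
      rw [h1, D.map_one_eq_zero, map_zero, mul_zero, mul_zero, mul_one, add_zero,
        add_zero] at e0
      have e1 := he i
      rw [a1, D.map_one_eq_zero, e0, mul_zero, mul_one, zero_mul, zero_add, add_zero] at e1
      refine ⟨e0, e1, ?_⟩
      by_contra hγ
      apply hne
      funext b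
      have e2 := he b
      rw [e0, e1, zero_mul, zero_mul, zero_add, zero_add] at e2
      exact (mul_eq_zero.1 e2).resolve_left hγ
    have hcard := ker_card (ι := {i1 : Fin l // i1 ≠ i0})
      (LinearMap.pi fun i1 => dvL (fun m => algebraMap K Ω (c ⟨i1.1, m⟩)) x j) (fun lam hlam => by
        classical
        have h2 := hn.j2 j hj i0 hi0 (fun i1 => if hi : i1 ≠ i0 then lam ⟨i1, hi⟩ else 0)
          (by simp) (fun b => by
            have h3 := hlam b
            rw [← Finset.add_sum_erase Finset.univ _ (Finset.mem_univ i0)]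
            have h4 : (if hi : i0 ≠ i0 then lam ⟨i0, hi⟩ else 0) = 0 := by simp
            rw [h4, zero_mul, zero_add]
            refine Eq.trans ?_ h3
            rw [Finset.sum_subtype (Finset.univ.erase i0) (p := fun i1 => i1 ≠ i0)
              (fun i1 => by simp) (fun i1 => (if hi : i1 ≠ i0 then lam ⟨i1, hi⟩ else 0) *
                dF (fun e => algebraMap K Ω (c e)) x j b i1)]
            refine Finset.sum_congr rfl fun i1 _ => ?_
            rw [dif_pos i1.2]
            rfl)
        funext i1
        have h3 := congrFun h2 i1.1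
        rw [dif_pos i1.2] at h3
        exact h3) _ hli fun s => by
        funext i1
        fin_cases s
        · exact euler_eq c x hx j i1.1
        · exact hb i1.1
        · exact hDb i1.1 i1.2
    have h5 : Fintype.card {i1 : Fin l // i1 ≠ i0} = l - 1 := by
      rw [Fintype.card_subtype_compl, Fintype.card_fin, Fintype.card_unique]
    have h6 := i0.pos
    omega
  have h7 := dv_der_two D (fun m => algebraMap K Ω (c ⟨i0, m⟩)) (fun m => hc _) x j hr hi0
  have h8 : dv (fun m => algebraMap K Ω (c ⟨i0, m⟩)) x j (fun b => D (x j b)) = 0 := hb i0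
  have h9 : dv (fun m => algebraMap K Ω (c ⟨i0, m⟩)) x j (fun b => D (D (x j b))) = 0 := by
    rw [hz]
    exact (dvL (fun m => algebraMap K Ω (c ⟨i0, m⟩)) x j).map_zero
  rw [h8, map_zero, h9, zero_add] at h7
  have h10 : Fm (fun e => algebraMap K Ω (c e)) (Function.update x j fun b => D (x j b)) i0 = 0 :=
    (mul_eq_zero.1 h7.symm).resolve_left two_ne_zero
  have h11 := hn.j3 j hj i0 hi0 (fun b => D (x j b))
    (by rw [h1]; exact D.map_one_eq_zero) hb h10
  have h12 := congrFun h11 i
  rw [a1] at h12
  exact one_ne_zero h12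

end Pool.Agent.Helper64.P
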